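import Pool.Agent.N748.HM.Stm
import Pool.Agent.N748.GC.BLK
import Pool.Agent.N748.GC.MV
import Pool.Agent.N748.GC.LEN

set_option autoImplicit false

/-!
# HM/SUPZ: the maximum in almost all windows, upper bound (helper16)
-/

namespace Pool.Agent.V5helper16.HM.SUPZ

open Finset Filter MeasureTheory MonoidAlgebra Topology Complex
open Pool.Agent.N748.GC
open Pool.Agent.N748.HM

/-! ### polynomials -/

lemma diff_ec (f : PC) (hf : ∀ n ∈ f.coeff.support, n ≠ 0) : Differentiable ℂ fun s : ℂ => ec s f := by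
  have h : (fun s : ℂ => ec s f) = fun s : ℂ => ∑ n ∈ f.coeff.support, f.coeff n * (n:ℂ) ^ (-s) := by
    funext s; exact MV.ec_apply s f
  rw [h]
  refine Differentiable.fun_sum fun n hn => ?_
  have hn0 : (n:ℂ) ≠ 0 := by exact_mod_cast hf n hn
  intro s
  exact ((differentiableAt_id.neg).const_cpow (Or.inl hn0)).const_mul _

lemma nn_add (δ : ℝ) (f g : PC) : nn δ (f + g) ≤ 2 * nn δ f + 2 * nn δ g := by
  classical
  have h1 : (f + g).coeff.support ⊆ f.coeff.support ∪ g.coeff.support := Finsupp.support_add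
  rw [MV.nn_eq_of_subset δ (f + g) h1, MV.nn_eq_of_subset δ f subset_union_left,
    MV.nn_eq_of_subset δ g (subset_union_right (s₁ := f.coeff.support)), mul_sum, mul_sum,
    ← sum_add_distrib]
  refine sum_le_sum fun n _ => ?_
  have h2 : (f + g).coeff n = f.coeff n + g.coeff n := rfl
  rw [h2]
  have h3 := norm_add_le (f.coeff n) (g.coeff n)
  have h4 := MV.wd_nonneg δ n
  have h5 : ‖f.coeff n + g.coeff n‖ ^ 2 ≤ 2 * ‖f.coeff n‖ ^ 2 + 2 * ‖g.coeff n‖ ^ 2 := by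
    have h6 := pow_le_pow_left₀ (norm_nonneg _) h3 2
    nlinarith [sq_nonneg (‖f.coeff n‖ - ‖g.coeff n‖)]
  calc ‖f.coeff n + g.coeff n‖ ^ 2 * wd δ n ≤ (2 * ‖f.coeff n‖ ^ 2 + 2 * ‖g.coeff n‖ ^ 2) * wd δ n :=
        mul_le_mul_of_nonneg_right h5 h4
    _ = _ := by ring

lemma ms (f : PC) (N X1 X2 δ : ℝ) (hf : Cop ∅ N f) (hδ : 0 ≤ δ) (hX : X1 ≤ X2) :
    ∫ t in X1..X2, ‖ec (1 / 2 + δ + t * I) f‖ ^ 2 ≤ (X2 - X1) * nn δ f + 8 * N * lc1 f ^ 2 := by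
  have hM : Mo ∅ 1 := ⟨one_ne_zero, fun p hp h1 => absurd (Nat.dvd_one.1 h1) hp.one_lt.ne'⟩
  have h := MV.main ∅ (fun p hp => absurd hp (notMem_empty p)) N X1 X2 δ f 1 1
    hf hδ hX hM hM (Nat.coprime_one_left 1)
  rw [if_pos rfl] at h
  have hchr : ∀ t : ℝ, chr 1 1 t = 1 := fun t => by unfold chr; simp
  simp_rw [hchr, mul_one] at h
  rw [intervalIntegral.integral_ofReal, ← Complex.ofReal_sub, Complex.norm_real, Real.norm_eq_abs] at h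
  have h2 := (abs_le.1 h).2
  push_cast at h2
  linarith

lemma Cop_empty {P : Finset ℕ} {N : ℝ} {f : PC} (h : Cop P N f) : Cop ∅ N f := fun n hn =>
  ⟨(h n hn).1, (h n hn).2.1, fun p hp => absurd hp (notMem_empty p)⟩

lemma Q_x2 {z : ℕ} {y : ℝ} (hz : 2 ≤ z) (hzy : (z:ℝ) ≤ y) :
    LEN.Q ∅ (y ^ 2) (∑ p ∈ PP z y, single (p ^ 2) (1 / 2 : ℂ)) := by
  have hy0 : 0 ≤ y := (Nat.cast_nonneg z).trans hzy
  have hy1 : 1 ≤ y := le_trans (by exact_mod_cast (by omega : 1 ≤ z)) hzy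
  constructor
  · refine LEN.Cop_sum _ fun p hp => ?_
    intro n hn
    have h1 : n = p ^ 2 := by
      rw [MonoidAlgebra.coeff_single] at hn
      exact mem_singleton.1 (Finsupp.support_single_subset hn)
    subst h1
    unfold PP at hp
    rw [mem_filter, mem_Icc] at hp
    refine ⟨pow_ne_zero _ hp.2.ne_zero, ?_, fun q hq _ => absurd hq (notMem_empty q)⟩
    push_cast
    exact pow_le_pow_left₀ (Nat.cast_nonneg p) ((Nat.le_floor_iff hy0).1 hp.1.2) 2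
  · refine (MV.lc1_sum _ _).trans ?_
    have h1 : ∀ p ∈ PP z y, lc1 (single (p ^ 2) (1 / 2 : ℂ)) ≤ 1 := fun p _ => by
      rw [MV.lc1_single]; norm_num
    refine (sum_le_sum h1).trans ?_
    rw [sum_const, nsmul_eq_mul, mul_one]
    have h2 : (PP z y).card ≤ ⌊y⌋₊ := by
      refine (card_le_card (t := Icc 1 ⌊y⌋₊) ?_).trans (by simp)
      unfold PP
      refine (filter_subset _ _).trans (Icc_subset_Icc (by omega) le_rfl)
    have h3 := (Nat.cast_le.2 h2).trans (Nat.floor_le hy0)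
    nlinarith

lemma Q_GQ {α : ℝ} (hα : 0 ≤ α) {z : ℕ} {y : ℝ} (hz : 2 ≤ z) (hzy : (z:ℝ) ≤ y) (Kq : ℕ) :
    Cop ∅ ((y ^ 2) ^ Kq) (GQ α z y Kq) ∧ lc1 (GQ α z y Kq) ≤ (y ^ 2) ^ Kq * Real.exp α := by
  have hy0 : 0 ≤ y := (Nat.cast_nonneg z).trans hzy
  have hy1 : 1 ≤ y := le_trans (by exact_mod_cast (by omega : 1 ≤ z)) hzy
  have hy2 : 1 ≤ y ^ 2 := one_le_pow₀ hy1
  have hQ := Q_x2 hz hzy
  have hP : ∀ p ∈ (∅ : Finset ℕ), p.Prime := fun p hp => absurd hp (notMem_empty p)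
  have hk : ∀ k, LEN.Q ∅ ((y ^ 2) ^ k) ((∑ p ∈ PP z y, single (p ^ 2) (1 / 2 : ℂ)) ^ k) := fun k =>
    LEN.Q_pow hP (by positivity) hQ k
  constructor
  · unfold GQ NKc
    refine LEN.Cop_sum _ fun k hk' => LEN.Cop_smul _ (LEN.Cop_mono ?_ (hk k).1)
    exact pow_le_pow_right₀ hy2 (by rw [mem_range] at hk'; omega)
  · unfold GQ NKc
    refine (MV.lc1_sum _ _).trans ?_
    have h1 : ∀ k ∈ range (Kq + 1), lc1 (((α ^ k / (k.factorial : ℝ) : ℝ) : ℂ) •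
        (∑ p ∈ PP z y, single (p ^ 2) (1 / 2 : ℂ)) ^ k) ≤ (y ^ 2) ^ Kq * (α ^ k / k.factorial) := by
      intro k hk'
      refine (LEN.lc1_smul _ _).trans ?_
      rw [Complex.norm_real, Real.norm_of_nonneg (by positivity), mul_comm]
      refine mul_le_mul_of_nonneg_right ((hk k).2.trans ?_) (by positivity)
      exact pow_le_pow_right₀ hy2 (by rw [mem_range] at hk'; omega)
    refine (sum_le_sum h1).trans ?_
    rw [← mul_sum]
    refine mul_le_mul_of_nonneg_left ?_ (by positivity)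
    exact Real.sum_le_exp_of_nonneg hα _

/-! ### the density -/

lemma lw_le {α : ℝ} (hα : 0 ≤ α) {p : ℕ} (hp : 2 ≤ p) (x : UnitAddCircle) :
    lw α p x ≤ -(2 * α) * Real.log (1 - (p:ℝ) ^ (-(1 / 2 : ℝ))) := by
  unfold lw
  have hp1 : (1:ℝ) < p := by exact_mod_cast hp
  have h0 : 0 ≤ (p:ℝ) ^ (-(1 / 2 : ℝ)) := by positivity
  have h1 : (p:ℝ) ^ (-(1 / 2 : ℝ)) < 1 := Real.rpow_lt_one_of_one_lt_of_neg hp1 (by norm_num)
  have h2 : 1 - (p:ℝ) ^ (-(1 / 2 : ℝ)) ≤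
      ‖1 - (fourier 1 x : ℂ) * (((p:ℝ) ^ (-(1 / 2 : ℝ)) : ℝ) : ℂ)‖ := by
    have h3 := norm_sub_norm_le (1 : ℂ) ((fourier 1 x : ℂ) * (((p:ℝ) ^ (-(1 / 2 : ℝ)) : ℝ) : ℂ))
    have h4 : ‖(fourier 1 x : ℂ) * (((p:ℝ) ^ (-(1 / 2 : ℝ)) : ℝ) : ℂ)‖ = (p:ℝ) ^ (-(1 / 2 : ℝ)) := by
      rw [norm_mul, Complex.norm_real, Real.norm_of_nonneg h0, fourier_apply, Circle.norm_coe, one_mul]
    rw [norm_one, h4] at h3
    exact h3
  have h5 := Real.log_le_log (by linarith) h2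
  have h6 : 0 ≤ 2 * α := by linarith
  nlinarith [mul_le_mul_of_nonneg_left h5 h6]

lemma mz_le {α : ℝ} (hα : 0 ≤ α) (z : ℕ) : ∃ S : ℝ, ∀ u, mz α z u * E0 α (Sm z) ≤ Real.exp S ∧
    (0 < E0 α (Sm z) → 0 < mz α z u) := by
  refine ⟨∑ p : Sm z, -(2 * α) * Real.log (1 - ((p:ℕ):ℝ) ^ (-(1 / 2 : ℝ))), fun u => ⟨?_, ?_⟩⟩
  · unfold mz M0
    by_cases h : E0 α (Sm z) = 0
    · rw [h, mul_zero]; exact (Real.exp_pos _).le
    · rw [div_mul_cancel₀ _ h, Real.exp_le_exp]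
      refine sum_le_sum fun p _ => lw_le hα ?_ _
      exact (LEN.Sm_prime p.1 p.2).two_le
  · intro h
    unfold mz M0
    exact div_pos (Real.exp_pos _) h

lemma E0_nonneg (α : ℝ) (P : Finset ℕ) : 0 ≤ E0 α P := by
  unfold E0
  exact prod_nonneg fun p _ => integral_nonneg fun _ => (Real.exp_pos _).le

/-! ### elementary estimates -/

lemma small_pow {C s e : ℝ} (hC : 0 < C) (hs : 0 < s) (he : 0 < e) :
    ∃ δ0 : ℝ, 0 < δ0 ∧ ∀ δ : ℝ, 0 < δ → δ ≤ δ0 → C * δ ^ s ≤ e := by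
  refine ⟨(e / C) ^ (1 / s), by positivity, fun δ h1 h2 => ?_⟩
  have h3 : δ ^ s ≤ e / C := by
    calc δ ^ s ≤ ((e / C) ^ (1 / s)) ^ s := Real.rpow_le_rpow h1.le h2 hs.le
      _ = e / C := by
        rw [← Real.rpow_mul (by positivity), one_div, inv_mul_cancel₀ hs.ne', Real.rpow_one]
  rw [le_div_iff₀ hC] at h3
  linarith

lemma ev_pow (c s : ℝ) (hs : s < 1) {e : ℝ} (he : 0 < e) : ∀ᶠ X : ℝ in atTop, c * X ^ s ≤ e * X := by
  have h := (tendsto_rpow_neg_atTop (show 0 < 1 - s by linarith)).eventually_le_const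
    (show 0 < e / (|c| + 1) by positivity)
  filter_upwards [h, eventually_ge_atTop (1:ℝ)] with X hX hX1
  have hX0 : 0 < X := by linarith
  have h1 : 0 ≤ X ^ s := by positivity
  have h2 : c * X ^ s ≤ (|c| + 1) * X ^ s := mul_le_mul_of_nonneg_right (by
    have := le_abs_self c; linarith) h1
  have e1 : X ^ s = X ^ (-(1 - s)) * X := by
    have := Real.rpow_add hX0 (-(1 - s)) 1
    rw [Real.rpow_one] at this
    rw [← this]; congr 1; ring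
  have h3 : (|c| + 1) * X ^ s ≤ (|c| + 1) * (e / (|c| + 1) * X) := by
    rw [e1]
    exact mul_le_mul_of_nonneg_left (mul_le_mul_of_nonneg_right hX hX0.le) (by positivity)
  have h4 : (|c| + 1) * (e / (|c| + 1) * X) = e * X := by field_simp
  linarith

lemma ev_log (θ : ℝ) : ∀ᶠ X : ℝ in atTop, Real.log X ^ θ + 1 ≤ X := by
  have h := (isLittleO_log_rpow_rpow_atTop θ (show (0:ℝ) < 1 by norm_num)).def
      (show (0:ℝ) < 1 / 2 by norm_num)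
  filter_upwards [h, eventually_ge_atTop (2:ℝ)] with X hX hX1
  have hl : 0 ≤ Real.log X := Real.log_nonneg (by linarith)
  rw [Real.rpow_one, Real.norm_of_nonneg (Real.rpow_nonneg hl _),
    Real.norm_of_nonneg (by linarith : (0:ℝ) ≤ X)] at hX
  linarith

/-! ### the pointwise step -/

/-- at the points where zeta is large, the polynomial is large -/
lemma point {α ε δ η N e0 a0 m S V W G Z : ℝ} (hα : 0 < α) (hδ : 0 < δ) (he0 : 0 < e0)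
    (hN : N = (2 * δ) ^ (α ^ 2) / a0 * (e0 * Real.exp V)) (hN1 : 1 / 2 ≤ N) (ha0 : 0 < a0)
    (hm : m * e0 ≤ Real.exp S) (hm0 : 0 < m) (hW : W = G / Real.exp V)
    (hZ : δ ^ (-(α + ε)) ≤ Z) (hη : η = 1)
    (hcl : |(2 * δ) ^ (α ^ 2) / a0 * Z ^ (2 * α) - m * W| ≤ η * (m * W)) :
    δ ^ (-(2 * α * (α + ε))) / (4 * Real.exp S) ≤ G := by
  subst hη hW
  have hV := Real.exp_pos V
  have hS := Real.exp_pos S
  have h1 := (abs_le.1 hcl).2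
  have h2 : (2 * δ) ^ (α ^ 2) / a0 * Z ^ (2 * α) ≤ 2 * (m * (G / Real.exp V)) := by linarith
  have h3 : δ ^ (-(2 * α * (α + ε))) ≤ Z ^ (2 * α) := by
    have h4 : δ ^ (-(2 * α * (α + ε))) = (δ ^ (-(α + ε))) ^ (2 * α) := by
      rw [← Real.rpow_mul hδ.le]; congr 1; ring
    rw [h4]
    exact Real.rpow_le_rpow (by positivity) hZ (by positivity)
  have hp : 0 < (2 * δ) ^ (α ^ 2) / a0 := by positivity
  have h5 : (2 * δ) ^ (α ^ 2) / a0 * δ ^ (-(2 * α * (α + ε))) ≤ 2 * (m * (G / Real.exp V)) :=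
    (mul_le_mul_of_nonneg_left h3 hp.le).trans h2
  have h6 : 0 < δ ^ (-(2 * α * (α + ε))) := Real.rpow_pos_of_pos hδ _
  have hG : 0 < G := by
    have h7 : 0 < 2 * (m * (G / Real.exp V)) := lt_of_lt_of_le (mul_pos hp h6) h5
    by_contra hcon
    push Not at hcon
    have : G / Real.exp V ≤ 0 := div_nonpos_of_nonpos_of_nonneg hcon hV.le
    have := mul_nonpos_of_nonneg_of_nonpos hm0.le this
    linarith
  -- multiply by e0 exp V
  have h8 : N * δ ^ (-(2 * α * (α + ε))) ≤ 2 * (m * e0) * G := by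
    have h9 := mul_le_mul_of_nonneg_left h5 (show 0 ≤ e0 * Real.exp V by positivity)
    have e1 : e0 * Real.exp V * ((2 * δ) ^ (α ^ 2) / a0 * δ ^ (-(2 * α * (α + ε)))) =
        N * δ ^ (-(2 * α * (α + ε))) := by rw [hN]; ring
    have e2 : e0 * Real.exp V * (2 * (m * (G / Real.exp V))) = 2 * (m * e0) * G := by
      field_simp
    rw [e1, e2] at h9
    exact h9
  have h9 : 2 * (m * e0) * G ≤ 2 * Real.exp S * G := by
    refine mul_le_mul_of_nonneg_right ?_ hG.le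
    linarith
  have h10 : 1 / 2 * δ ^ (-(2 * α * (α + ε))) ≤ N * δ ^ (-(2 * α * (α + ε))) :=
    mul_le_mul_of_nonneg_right hN1 h6.le
  rw [div_le_iff₀ (by positivity)]
  linarith

/-! ### the mean square -/

lemma BP_zero (z : ℕ) (y : ℝ) (j J Rs : ℕ) : BP (fun _ => 0) z y j J Rs = 1 := by
  unfold BP
  refine prod_eq_one fun i _ => ?_
  unfold NKc
  rw [sum_range_succ']
  simp

lemma nn_BP {c : ℝ} {A : ℕ} {C1 : ℝ} {R1 : ℕ} (hC1 : 0 ≤ C1)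
    (hN : ∀ (z J Rs : ℕ) (y : ℝ), 144 ≤ z → 1 ≤ y →
      R1 ≤ Rs → 1 ≤ Rs → (∀ i < J, ∑ p ∈ IB z y i, 1 / (p:ℝ) ≤ c) → ∀ δ : ℝ, 0 ≤ δ → ∀ a b : ℕ → ℝ,
      (∀ i, 0 ≤ a i ∧ a i ≤ A) → (∀ i, 0 ≤ b i ∧ b i ≤ A) → ∀ h : ℝ,
      nn δ (BP a z y 0 J Rs * sf h (BP b z y 0 J Rs)) ≤
        Real.exp ((∑ i ∈ range J, ∑ p ∈ IB z y i, (a i ^ 2 + b i ^ 2 +
          2 * a i * b i * Real.cos (h * Real.log p)) * wd δ p) + C1 * Real.exp (-(2 * (Rs:ℝ)))))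
    {z J Rs : ℕ} {y : ℝ} (hz : 144 ≤ z) (hy : 1 ≤ y) (hR : R1 ≤ Rs) (hR1 : 1 ≤ Rs)
    (hb : ∀ i < J, ∑ p ∈ IB z y i, 1 / (p:ℝ) ≤ c) {δ : ℝ} (hδ : 0 ≤ δ) {α : ℝ} (hα : 0 ≤ α)
    (hαA : α ≤ A) :
    nn δ (BP (fun _ => α) z y 0 J Rs) ≤ Real.exp C1 * Real.exp (α ^ 2 * VB δ z y 0 J) := by
  have h := hN z J Rs y hz hy hR hR1 hb δ hδ (fun _ => α) (fun _ => 0) (fun _ => ⟨hα, hαA⟩)
    (fun _ => ⟨le_rfl, Nat.cast_nonneg A⟩) 0
  rw [BP_zero, map_one, mul_one] at h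
  refine h.trans ?_
  rw [← Real.exp_add, Real.exp_le_exp]
  have e1 : (∑ i ∈ range J, ∑ p ∈ IB z y i, (α ^ 2 + (0:ℝ) ^ 2 +
      2 * α * 0 * Real.cos (0 * Real.log p)) * wd δ p) = α ^ 2 * VB δ z y 0 J := by
    unfold VB
    rw [Nat.Ico_zero_eq_range, mul_sum]
    refine sum_congr rfl fun i _ => ?_
    rw [mul_sum]
    refine sum_congr rfl fun p _ => ?_
    ring
  rw [e1]
  have e2 : Real.exp (-(2 * (Rs:ℝ))) ≤ 1 := by
    rw [Real.exp_le_one_iff]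
    have : (0:ℝ) ≤ Rs := Nat.cast_nonneg _
    linarith
  have := mul_le_mul_of_nonneg_left e2 hC1
  linarith

/-! ### the result -/

theorem t_SUPZ (hS : S_SUP) (hNN : S_NNB3) (hLEN : S_LEN3) (hSQ1 : S_SQ1) (hNR : S_NRM)
    (hCLL : S_CL) (hP : S_PRM) : S_SUPZ := by
  intro θ hθ ε hε
  obtain ⟨α, hα⟩ : ∃ α, α = Real.sqrt (1 + θ) := ⟨_, rfl⟩
  have hα2 : α ^ 2 = 1 + θ := by rw [hα]; exact Real.sq_sqrt (by linarith)
  have hα1 : 1 ≤ α := by rw [hα]; exact Real.one_le_sqrt.2 (by linarith)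
  have hα0 : 0 < α := by linarith
  rw [← hα]
  obtain ⟨A, hA⟩ : ∃ A, A = ⌈α⌉₊ := ⟨_, rfl⟩
  have hαA : α ≤ A := by rw [hA]; exact Nat.le_ceil α
  obtain ⟨c, hc, hPRM⟩ := hP
  obtain ⟨C1, R1, hC1, hN⟩ := hNN c hc A
  obtain ⟨z1, R2, hSQ⟩ := hSQ1 α hα0 c hc 1 one_pos
  obtain ⟨z2, hCL0⟩ := hCLL A α hα0 hαA 1 one_pos
  obtain ⟨z3, hNR0⟩ := hNR α hα0 (1 / 2) (by norm_num)
  obtain ⟨z, hz⟩ : ∃ z, z = max (max z1 z2) (max z3 1000) := ⟨_, rfl⟩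
  have hz1 : z1 ≤ z := by rw [hz]; exact (le_max_left _ _).trans (le_max_left _ _)
  have hz2 : z2 ≤ z := by rw [hz]; exact (le_max_right _ _).trans (le_max_left _ _)
  have hz3 : z3 ≤ z := by rw [hz]; exact (le_max_left _ _).trans (le_max_right _ _)
  have hz4 : 1000 ≤ z := by rw [hz]; exact (le_max_right _ _).trans (le_max_right _ _)
  obtain ⟨R3, x1, δ1, η1, C2, hδ1, hδ1', hη1, hC2, hCL⟩ := hCL0 z hz2
  obtain ⟨x2, δ2, hδ2, hNRM⟩ := hNR0 z hz3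
  obtain ⟨CS, hCS, hSup⟩ := hS
  obtain ⟨R0, hR0⟩ : ∃ R0, R0 = max (max R1 R2) (max R3 (A + 1)) := ⟨_, rfl⟩
  have hR1 : R1 ≤ R0 := by rw [hR0]; exact (le_max_left _ _).trans (le_max_left _ _)
  have hR2 : R2 ≤ R0 := by rw [hR0]; exact (le_max_right _ _).trans (le_max_left _ _)
  have hR3 : R3 ≤ R0 := by rw [hR0]; exact (le_max_left _ _).trans (le_max_right _ _)
  have hR4 : A + 1 ≤ R0 := by rw [hR0]; exact (le_max_right _ _).trans (le_max_right _ _)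
  obtain ⟨x0, hx0⟩ : ∃ x0, x0 = max x1 (2 * max x2 0) := ⟨_, rfl⟩
  have hx01 : x1 ≤ x0 := by rw [hx0]; exact le_max_left _ _
  have hx02 : 2 * max x2 0 ≤ x0 := by rw [hx0]; exact le_max_right _ _
  have hx03 : x2 ≤ max x2 0 := le_max_left _ _
  have hx04 : 0 ≤ max x2 0 := le_max_right _ _
  have hD : 0 < θ + 1 := by linarith
  obtain ⟨lam, δ3, hlam, hδ3, hδ316, hPev⟩ := hPRM A (θ + 1) hD z hz4 R0 x0 η1 C2 hη1 hC2
  obtain ⟨S, hmz⟩ := mz_le hα0.le z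
  obtain ⟨e0, he0⟩ : ∃ e0, e0 = E0 α (Sm z) := ⟨_, rfl⟩
  obtain ⟨a0, ha0⟩ : ∃ a0, a0 = aa α := ⟨_, rfl⟩
  obtain ⟨C4, hC4⟩ : ∃ C4, C4 = 6 * (Real.exp C1 + 1) * (a0 / e0) + 1 := ⟨_, rfl⟩
  obtain ⟨C3, hC3⟩ : ∃ C3, C3 = CS * 3 * C4 * (4 * Real.exp S) := ⟨_, rfl⟩
  obtain ⟨δ4, hδ4, hδ4'⟩ := small_pow (C := |C3| + 1) (s := 2 * α * ε) (e := ε / 3) (by positivity)
    (by positivity) (by positivity)
  obtain ⟨δ5, hδ5, hδ5'⟩ := small_pow (C := 1) (s := θ + 1) (e := ε / 3) one_pos hD (by positivity)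
  obtain ⟨δ0, hδ0⟩ : ∃ δ0, δ0 = min (min (min δ1 (δ2 / 2)) δ3) (min δ4 δ5) := ⟨_, rfl⟩
  have hd0 : 0 < δ0 := by
    rw [hδ0]
    refine lt_min (lt_min (lt_min hδ1 (by positivity)) hδ3) (lt_min hδ4 hδ5)
  have hd1 : δ0 ≤ δ1 := by
    rw [hδ0]; exact (min_le_left _ _).trans ((min_le_left _ _).trans (min_le_left _ _))
  have hd2 : δ0 ≤ δ2 / 2 := by
    rw [hδ0]; exact (min_le_left _ _).trans ((min_le_left _ _).trans (min_le_right _ _))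
  have hd3 : δ0 ≤ δ3 := by rw [hδ0]; exact (min_le_left _ _).trans (min_le_right _ _)
  have hd4 : δ0 ≤ δ4 := by rw [hδ0]; exact (min_le_right _ _).trans (min_le_left _ _)
  have hd5 : δ0 ≤ δ5 := by rw [hδ0]; exact (min_le_right _ _).trans (min_le_right _ _)
  refine ⟨lam, δ0, hlam, hd0, hd3.trans hδ316, ?_⟩
  filter_upwards [hPev, ev_pow (64 * Real.exp (2 * α)) (3 / 25) (by norm_num) (one_pos),
    ev_pow 1 (9 / 10) (by norm_num) (show 0 < ε / 6 by positivity), ev_log θ,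
    eventually_ge_atTop (6 / ε + 4)] with X hX1 hX2 hX3 hX4 hX5 δ hδ hδ0' hlamδ
  have hX6 : 4 ≤ X := by
    have : 0 ≤ 6 / ε := by positivity
    linarith
  have hX0 : 0 < X := by linarith
  have hX7 : 1 ≤ ε / 6 * X := by
    have h1 : 6 / ε ≤ X := by linarith
    rw [div_le_iff₀ hε] at h1
    linarith
  obtain ⟨Rs, J, K, Kq, y, a, v, hRs, hSP, hlogX, hx, hv, hsum, hK, hKq, hKq2, hvol⟩ :=
    hX1 δ hδ (hδ0'.trans hd3) hlamδ
  have hδ1s : δ ≤ 1 := by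
    have := hδ0'.trans (hd3.trans hδ316); linarith
  have hzy := hSP.zy
  have hy1 : 1 ≤ y := le_trans (by exact_mod_cast (by omega : 1 ≤ z)) hzy
  have hly : 0 ≤ Real.log y := Real.log_nonneg hy1
  -- the normalising constants
  have hNN2 : ∀ δ' : ℝ, δ / 2 ≤ δ' → δ' ≤ 3 * δ / 2 →
      |(2 * δ') ^ (α ^ 2) / a0 * (e0 * Real.exp (α ^ 2 * VB δ' z y 0 J)) - 1| ≤ 1 / 2 := by
    intro δ' h1 h2
    rw [ha0, he0]
    refine hNRM δ' (by linarith) (by linarith) y J hzy hSP.bJ ?_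
    have h3 : δ / 2 * Real.log y ≤ δ' * Real.log y := mul_le_mul_of_nonneg_right h1 hly
    linarith
  have hN0 := hNN2 δ (by linarith) (by linarith)
  have hN1 := (abs_le.1 hN0).1
  have he0' : 0 < e0 ∧ 0 < a0 := by
    have h1 : 0 ≤ e0 := by rw [he0]; exact E0_nonneg α _
    have h2 : e0 ≠ 0 := by
      intro h; rw [h] at hN1; norm_num at hN1
    have h3 : 0 < e0 := lt_of_le_of_ne h1 (Ne.symm h2)
    refine ⟨h3, ?_⟩
    by_contra hcon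
    push Not at hcon
    have h4 : (2 * δ) ^ (α ^ 2) / a0 ≤ 0 := div_nonpos_of_nonneg_of_nonpos (by positivity) hcon
    have h5 := mul_nonpos_of_nonpos_of_nonneg h4
      (show 0 ≤ e0 * Real.exp (α ^ 2 * VB δ z y 0 J) by positivity)
    linarith
  obtain ⟨he0p, ha0p⟩ := he0'
  have hC4p : 1 ≤ C4 := by
    rw [hC4]
    have : 0 ≤ 6 * (Real.exp C1 + 1) * (a0 / e0) := by positivity
    linarith
  -- the polynomial
  obtain ⟨Q, hQ⟩ : ∃ Q, Q = BP (fun _ => α) z y 0 J Rs * GQ α z y Kq := ⟨_, rfl⟩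
  have hLEN' := (hLEN A z J Rs y (by omega) hy1 (by omega) (by omega) (fun i hi => (hSP.bl i hi).1)).1
    (fun _ => α) (fun _ => ⟨hα0.le, hαA⟩) 0 (Nat.zero_le _)
  obtain ⟨N1, hN1'⟩ : ∃ N1, N1 = Real.exp (Real.log y * (90 * ((Rs:ℝ) + 1))) := ⟨_, rfl⟩
  rw [← hN1'] at hLEN'
  have hRs0 : (0:ℝ) ≤ Rs := Nat.cast_nonneg _
  have hN1X : N1 ≤ 2 * X ^ ((1:ℝ) / 50) := by
    have h1 : N1 ≤ Real.exp (Real.log y * (180 * ((Rs:ℝ) + 1))) := by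
      rw [hN1', Real.exp_le_exp]
      exact mul_le_mul_of_nonneg_left (by linarith) hly
    have h2 : (2 * (X + 1)) ^ ((1:ℝ) / 50) ≤ (4 * X) ^ ((1:ℝ) / 50) :=
      Real.rpow_le_rpow (by linarith) (by linarith) (by norm_num)
    have h3 : (4 * X) ^ ((1:ℝ) / 50) = 4 ^ ((1:ℝ) / 50) * X ^ ((1:ℝ) / 50) :=
      Real.mul_rpow (by norm_num) hX0.le
    have h4 : (4:ℝ) ^ ((1:ℝ) / 50) ≤ 2 := by
      have : (4:ℝ) ^ ((1:ℝ) / 50) ≤ 4 ^ ((1:ℝ) / 2) :=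
        Real.rpow_le_rpow_of_exponent_le (by norm_num) (by norm_num)
      have h5 : (4:ℝ) ^ ((1:ℝ) / 2) = 2 := by
        rw [← Real.sqrt_eq_rpow]
        rw [show (4:ℝ) = 2 ^ 2 by norm_num]
        exact Real.sqrt_sq (by norm_num)
      linarith
    have h5 : 0 ≤ X ^ ((1:ℝ) / 50) := by positivity
    have h6 := hSP.len
    have h7 := mul_le_mul_of_nonneg_right h4 h5
    linarith
  obtain ⟨N2, hN2'⟩ : ∃ N2, N2 = (y ^ 2) ^ Kq := ⟨_, rfl⟩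
  have hN2X : N2 ≤ X ^ ((1:ℝ) / 50) := by
    have h1 : N2 = Real.exp (2 * (Kq * Real.log y)) := by
      rw [hN2', ← pow_mul, ← Real.rpow_natCast, Real.rpow_def_of_pos (by linarith)]
      push_cast; congr 1; ring
    rw [h1, Real.rpow_def_of_pos hX0, Real.exp_le_exp]
    linarith
  have hN2p : 0 ≤ N2 := by rw [hN2']; positivity
  have hN1p : 0 ≤ N1 := by rw [hN1']; positivity
  have hGQ := Q_GQ hα0.le (z := z) (y := y) (by omega) hzy Kq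
  rw [← hN2'] at hGQ
  have hcop : Cop ∅ (N1 * N2) Q := by
    rw [hQ]
    exact MV.Cop_mul (fun p hp => absurd hp (notMem_empty p)) hN1p (Cop_empty hLEN'.1) hGQ.1
  have hlc : lc1 Q ≤ N1 * (N2 * Real.exp α) := by
    rw [hQ]
    exact (MV.lc1_mul _ _).trans (mul_le_mul hLEN'.2 hGQ.2 (MV.lc1_nonneg _) hN1p)
  -- mean squares
  have herr : 8 * (N1 * N2) * lc1 Q ^ 2 ≤ X := by
    have h1 : lc1 Q ^ 2 ≤ (N1 * (N2 * Real.exp α)) ^ 2 := pow_le_pow_left₀ (MV.lc1_nonneg _) hlc 2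
    have h2 : 8 * (N1 * N2) * lc1 Q ^ 2 ≤ 8 * (N1 * N2) * (N1 * (N2 * Real.exp α)) ^ 2 :=
      mul_le_mul_of_nonneg_left h1 (by positivity)
    have h3 : 8 * (N1 * N2) * (N1 * (N2 * Real.exp α)) ^ 2 = 8 * (N1 * N2) ^ 3 * Real.exp (2 * α) := by
      have : Real.exp (2 * α) = Real.exp α ^ 2 := by rw [← Real.exp_nat_mul]; norm_num
      rw [this]; ring
    have h4 : N1 * N2 ≤ 2 * X ^ ((1:ℝ) / 25) := by
      have e1 : X ^ ((1:ℝ) / 25) = X ^ ((1:ℝ) / 50) * X ^ ((1:ℝ) / 50) := by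
        rw [← Real.rpow_add hX0]; norm_num
      rw [e1]
      have h5 : 0 ≤ X ^ ((1:ℝ) / 50) := by positivity
      calc N1 * N2 ≤ (2 * X ^ ((1:ℝ) / 50)) * X ^ ((1:ℝ) / 50) :=
            mul_le_mul hN1X hN2X hN2p (by positivity)
        _ = _ := by ring
    have h5 : (N1 * N2) ^ 3 ≤ 8 * X ^ ((3:ℝ) / 25) := by
      have e1 : (X ^ ((1:ℝ) / 25)) ^ 3 = X ^ ((3:ℝ) / 25) := by
        rw [← Real.rpow_natCast, ← Real.rpow_mul hX0.le]; norm_num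
      calc (N1 * N2) ^ 3 ≤ (2 * X ^ ((1:ℝ) / 25)) ^ 3 := pow_le_pow_left₀ (by positivity) h4 3
        _ = 8 * (X ^ ((1:ℝ) / 25)) ^ 3 := by ring
        _ = _ := by rw [e1]
    have h6 := Real.exp_pos (2 * α)
    have h7 : 8 * (N1 * N2) ^ 3 * Real.exp (2 * α) ≤ 64 * Real.exp (2 * α) * X ^ ((3:ℝ) / 25) := by
      have h8 := mul_le_mul_of_nonneg_right h5 h6.le
      linarith
    linarith
  obtain ⟨B, hB⟩ : ∃ B, B = X * δ ^ (-(α ^ 2)) * C4 := ⟨_, rfl⟩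
  have hδα : 1 ≤ δ ^ (-(α ^ 2)) := Real.one_le_rpow_of_pos_of_le_one_of_nonpos hδ hδ1s (by
    have := sq_nonneg α; linarith)
  have hB0 : 0 ≤ B := by rw [hB]; positivity
  have hXX : X ^ ((9:ℝ) / 10) ≤ 2 * X := by
    have e3 : X ^ ((9:ℝ) / 10) ≤ X ^ (1:ℝ) :=
      Real.rpow_le_rpow_of_exponent_le (by linarith) (by norm_num)
    rw [Real.rpow_one] at e3
    linarith
  have hX9 : 0 ≤ X ^ ((9:ℝ) / 10) := by positivity
  have hms : ∀ δ' : ℝ, δ / 2 ≤ δ' → δ' ≤ 3 * δ / 2 →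
      ∫ t in (X ^ ((9:ℝ) / 10))..(2 * X), ‖ec (1 / 2 + δ' + t * I) Q‖ ^ 2 ≤ B := by
    intro δ' h1 h2
    have hδ' : 0 < δ' := by linarith
    have h3 := ms Q (N1 * N2) (X ^ ((9:ℝ) / 10)) (2 * X) δ' hcop hδ'.le hXX
    have h4 : nn δ' Q ≤ 2 * (Real.exp C1 + 1) * Real.exp (α ^ 2 * VB δ' z y 0 J) := by
      have e1 : Q = BP (fun _ => α) z y 0 J Rs +
          BP (fun _ => α) z y 0 J Rs * (GQ α z y Kq - 1) := by rw [hQ]; ring
      rw [e1]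
      refine (nn_add _ _ _).trans ?_
      have e2 := nn_BP hC1 hN (z := z) (J := J) (Rs := Rs) (y := y) (by omega) hy1 (by omega)
        (by omega) (fun i hi => (hSP.bl i hi).2) hδ'.le hα0.le hαA
      have e3 := hSQ z J Rs Kq y hz1 (by omega) hy1 hSP.bJ (fun i hi => (hSP.bl i hi).2) δ' hδ'.le
      linarith
    have h5 : Real.exp (α ^ 2 * VB δ' z y 0 J) ≤ 3 / 2 * (a0 / e0) * δ ^ (-(α ^ 2)) := by
      have e1 := (abs_le.1 (hNN2 δ' h1 h2)).2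
      have e2 : δ ^ (α ^ 2) ≤ (2 * δ') ^ (α ^ 2) :=
        Real.rpow_le_rpow hδ.le (by linarith) (sq_nonneg α)
      have e3 : 0 < δ ^ (α ^ 2) := Real.rpow_pos_of_pos hδ _
      have e4 : δ ^ (α ^ 2) / a0 * (e0 * Real.exp (α ^ 2 * VB δ' z y 0 J)) ≤ 3 / 2 := by
        have e5 : δ ^ (α ^ 2) / a0 * (e0 * Real.exp (α ^ 2 * VB δ' z y 0 J)) ≤
            (2 * δ') ^ (α ^ 2) / a0 * (e0 * Real.exp (α ^ 2 * VB δ' z y 0 J)) := by
          refine mul_le_mul_of_nonneg_right ?_ (by positivity)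
          exact div_le_div_of_nonneg_right e2 ha0p.le
        linarith
      rw [Real.rpow_neg hδ.le]
      have e6 : Real.exp (α ^ 2 * VB δ' z y 0 J) =
          (δ ^ (α ^ 2) / a0 * (e0 * Real.exp (α ^ 2 * VB δ' z y 0 J))) * ((a0 / e0) * (δ ^ (α ^ 2))⁻¹) := by
        field_simp
      rw [e6]
      calc _ ≤ 3 / 2 * ((a0 / e0) * (δ ^ (α ^ 2))⁻¹) :=
            mul_le_mul_of_nonneg_right e4 (by positivity)
        _ = _ := by ring
    have h6 : (2 * X - X ^ ((9:ℝ) / 10)) * nn δ' Q ≤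
        (2 * X) * (2 * (Real.exp C1 + 1) * (3 / 2 * (a0 / e0) * δ ^ (-(α ^ 2)))) := by
      have e1 : nn δ' Q ≤ 2 * (Real.exp C1 + 1) * (3 / 2 * (a0 / e0) * δ ^ (-(α ^ 2))) :=
        h4.trans (mul_le_mul_of_nonneg_left h5 (by positivity))
      exact mul_le_mul (by linarith) e1 (MV.nn_nonneg _ _) (by positivity)
    have h7 : X ≤ X * δ ^ (-(α ^ 2)) := le_mul_of_one_le_right hX0.le hδα
    rw [hB, hC4]
    have h8 : X * δ ^ (-(α ^ 2)) * (6 * (Real.exp C1 + 1) * (a0 / e0) + 1) =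
        (2 * X) * (2 * (Real.exp C1 + 1) * (3 / 2 * (a0 / e0) * δ ^ (-(α ^ 2)))) +
          X * δ ^ (-(α ^ 2)) := by ring
    rw [h8]
    linarith
  have hdiff : DifferentiableOn ℂ (fun s => ec s Q) {s : ℂ | 1 / 2 < s.re ∧ s.re < 1} :=
    (diff_ec Q fun n hn => (hcop n hn).1).differentiableOn
  obtain ⟨H, hH⟩ : ∃ H, H = δ ^ (-θ) := ⟨_, rfl⟩
  have hH1 : 1 ≤ H := by
    rw [hH]; exact Real.one_le_rpow_of_pos_of_le_one_of_nonpos hδ hδ1s (by linarith)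
  have hHX : H + 1 ≤ X := by
    have h1 : H ≤ Real.log X ^ θ := by
      rw [hH, Real.rpow_neg hδ.le, ← Real.inv_rpow hδ.le, ← one_div]
      exact Real.rpow_le_rpow (by positivity) hlogX hθ
    linarith
  obtain ⟨κ, hκ⟩ : ∃ κ, κ = Real.sqrt (δ ^ (-(2 * α * (α + ε))) / (4 * Real.exp S)) := ⟨_, rfl⟩
  have hκ0 : 0 < δ ^ (-(2 * α * (α + ε))) / (4 * Real.exp S) := by
    have := Real.rpow_pos_of_pos hδ (-(2 * α * (α + ε)))
    positivity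
  have hκ1 : 0 < κ := by rw [hκ]; exact Real.sqrt_pos.2 hκ0
  have hκ2 : κ ^ 2 = δ ^ (-(2 * α * (α + ε))) / (4 * Real.exp S) := by
    rw [hκ]; exact Real.sq_sqrt hκ0.le
  have hfin := hSup (fun s => ec s Q) hdiff δ (X ^ ((9:ℝ) / 10)) (2 * X) B hδ
    (by have := hδ0'.trans (hd3.trans hδ316); linarith) hXX hB0 hms H κ (by linarith) hκ1
  have hfin2 : CS * (H + 2) * B / (δ * κ ^ 2) ≤ ε / 3 * X := by
    have hδp := Real.rpow_pos_of_pos hδ (-(2 * α * (α + ε)))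
    have e1 : CS * (H + 2) * B / (δ * κ ^ 2) ≤ CS * (3 * H) * B / (δ * κ ^ 2) := by
      refine div_le_div_of_nonneg_right ?_ (by positivity)
      refine mul_le_mul_of_nonneg_right (mul_le_mul_of_nonneg_left (by linarith) hCS.le) hB0
    have e2 : CS * (3 * H) * B / (δ * κ ^ 2) = C3 * δ ^ (2 * α * ε) * X := by
      rw [hκ2, hC3, hB, hH]
      have e3 : δ ^ (2 * α * ε) = δ ^ (-θ) * δ ^ (-(α ^ 2)) / δ / δ ^ (-(2 * α * (α + ε))) := by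
        rw [← Real.rpow_add hδ, ← Real.rpow_sub_one hδ.ne', ← Real.rpow_sub hδ]
        congr 1
        linear_combination -hα2
      rw [e3]
      field_simp
    have e4 : C3 * δ ^ (2 * α * ε) ≤ ε / 3 := by
      refine le_trans ?_ (hδ4' δ hδ (hδ0'.trans hd4))
      exact mul_le_mul_of_nonneg_right (by have := le_abs_self C3; linarith)
        (Real.rpow_nonneg hδ.le _)
    rw [e2] at e1
    exact e1.trans (mul_le_mul_of_nonneg_right e4 hX0.le)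
  -- the sets
  have hδD : δ ^ (θ + 1) * X ≤ ε / 3 * X := by
    have := hδ5' δ hδ (hδ0'.trans hd5)
    rw [one_mul] at this
    exact mul_le_mul_of_nonneg_right this hX0.le
  have hH2 : H ≤ δ ^ (-(θ + 1)) := by
    rw [hH]
    exact Real.rpow_le_rpow_of_exponent_ge hδ hδ1s (by linarith)
  rw [← hH]
  have hsub : {t : ℝ | 0 ≤ t ∧ t ≤ X ∧ ∃ u : ℝ, t ≤ u ∧ u ≤ t + H ∧
      δ ^ (-(α + ε)) ≤ ‖riemannZeta (1 / 2 + δ + u * I)‖} ⊆
      (Set.Icc 0 (X ^ ((9:ℝ) / 10) + 1) ∪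
      {t : ℝ | X ^ ((9:ℝ) / 10) + 1 ≤ t ∧ t ≤ X ∧ ∃ u : ℝ, t ≤ u ∧ u ≤ t + δ ^ (-(θ + 1)) ∧
        ¬ (G1 A z Rs y J δ u ∧ ‖ec (1 / 2 + δ + u * I) (xc (PP z y))‖ ≤ a ∧
          ‖Ez z y K (1 / 2 + δ + u * I)‖ ≤ η1)}) ∪
      {t : ℝ | X ^ ((9:ℝ) / 10) + 1 ≤ t ∧ t + H + 1 ≤ 2 * X ∧ ∃ u : ℝ, t ≤ u ∧ u ≤ t + H ∧
        κ ≤ ‖(fun s => ec s Q) (1 / 2 + δ + u * I)‖} := by
    rintro t ⟨ht0, htX, u, hu1, hu2, hu3⟩
    by_cases hc1 : t ≤ X ^ ((9:ℝ) / 10) + 1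
    · exact Or.inl (Or.inl ⟨ht0, hc1⟩)
    push Not at hc1
    by_cases hc2 : G1 A z Rs y J δ u ∧ ‖ec (1 / 2 + δ + u * I) (xc (PP z y))‖ ≤ a ∧
          ‖Ez z y K (1 / 2 + δ + u * I)‖ ≤ η1
    · right
      obtain ⟨g1, g2, g3⟩ := hc2
      refine ⟨hc1.le, by linarith, u, hu1, hu2, ?_⟩
      have hcl := hCL δ hδ (hδ0'.trans hd1) Rs J K Kq y hzy hSP.bJ (by omega) (by linarith) u a v
        g2 hsum hK hKq g1 g3
      have hmzu := hmz u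
      have hpt := point (α := α) (ε := ε) (δ := δ) (η := 1)
        (N := (2 * δ) ^ (α ^ 2) / a0 * (e0 * Real.exp (α ^ 2 * VB δ z y 0 J))) (e0 := e0) (a0 := a0)
        (m := mz α z u) (S := S) (V := α ^ 2 * VB δ z y 0 J)
        (W := WP α z Rs y J δ u * ‖ec (1 / 2 + δ + u * I) (GQ α z y Kq)‖ ^ 2)
        (G := ‖ec (1 / 2 + δ + u * I) Q‖ ^ 2) (Z := ‖riemannZeta (1 / 2 + δ + u * I)‖)
        hα0 hδ he0p rfl (by linarith) ha0p (by rw [he0]; exact hmzu.1)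
        (hmzu.2 (by rw [← he0]; exact he0p)) ?_ hu3 rfl (by rw [ha0]; exact hcl)
      · rw [← hκ2] at hpt
        exact le_of_sq_le_sq hpt (norm_nonneg _)
      · unfold WP
        rw [hQ, map_mul, norm_mul, mul_pow]
        ring
    · left; right
      exact ⟨hc1.le, htX, u, hu1, by linarith, hc2⟩
  calc volume {t : ℝ | 0 ≤ t ∧ t ≤ X ∧ ∃ u : ℝ, t ≤ u ∧ u ≤ t + H ∧
      δ ^ (-(α + ε)) ≤ ‖riemannZeta (1 / 2 + δ + u * I)‖}
      ≤ volume (Set.Icc 0 (X ^ ((9:ℝ) / 10) + 1)) +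
        volume {t : ℝ | X ^ ((9:ℝ) / 10) + 1 ≤ t ∧ t ≤ X ∧ ∃ u : ℝ, t ≤ u ∧ u ≤ t + δ ^ (-(θ + 1)) ∧
        ¬ (G1 A z Rs y J δ u ∧ ‖ec (1 / 2 + δ + u * I) (xc (PP z y))‖ ≤ a ∧
          ‖Ez z y K (1 / 2 + δ + u * I)‖ ≤ η1)} +
        volume {t : ℝ | X ^ ((9:ℝ) / 10) + 1 ≤ t ∧ t + H + 1 ≤ 2 * X ∧ ∃ u : ℝ, t ≤ u ∧ u ≤ t + H ∧
        κ ≤ ‖(fun s => ec s Q) (1 / 2 + δ + u * I)‖} :=
        (measure_mono hsub).trans ((measure_union_le _ _).trans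
          (add_le_add_left (measure_union_le _ _) _))
    _ ≤ ENNReal.ofReal (ε / 3 * X) + ENNReal.ofReal (ε / 3 * X) + ENNReal.ofReal (ε / 3 * X) := by
        refine add_le_add (add_le_add ?_ ?_) ?_
        · rw [Real.volume_Icc, sub_zero]
          refine ENNReal.ofReal_le_ofReal ?_
          linarith
        · exact hvol.trans (ENNReal.ofReal_le_ofReal hδD)
        · exact hfin.trans (ENNReal.ofReal_le_ofReal hfin2)
    _ = ENNReal.ofReal (ε * X) := by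
        rw [← ENNReal.ofReal_add (by positivity) (by positivity),
          ← ENNReal.ofReal_add (by positivity) (by positivity)]
        congr 1
        ring

end Pool.Agent.V5helper16.HM.SUPZ
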